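import Mathlib

/-!
Gaps between the record values of `g(n) = (H(n) - 2) * sqrt n` on odd non-deficient numbers
are unbounded.  The odd primorials are records and the jump in front of each of them is large.
-/

namespace Pool.Agent.Results.MP_e83726_nt.GapsUnbounded

/-- `H(n)`: the product of `p / (p - 1)` over the distinct primes `p` dividing `n`. -/
noncomputable def H (n : ℕ) : ℝ := ∏ p ∈ n.primeFactors, (p : ℝ) / ((p : ℝ) - 1)

/-- `g(n) = S(n) * sqrt n` with the surplus `S(n) = H(n) - 2`. -/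
noncomputable def g (n : ℕ) : ℝ := (H n - 2) * Real.sqrt n

/-- `n` is odd and non-deficient: the sum of its divisors is at least `2 n`. -/
def OddNonDeficient (n : ℕ) : Prop := Odd n ∧ 2 * n ≤ ∑ d ∈ n.divisors, d

/-- `n` belongs to `B₁`: it is odd, non-deficient and sets a record for `g`. -/
def B1 (n : ℕ) : Prop := OddNonDeficient n ∧ ∀ k < n, OddNonDeficient k → g k < g n

/-- The odd primes up to `q`. -/
def oddPrimes (q : ℕ) : Finset ℕ := (Finset.range (q + 1)).filter fun p => p.Prime ∧ p ≠ 2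

/-- The odd primorial. -/
def oddPrimorial (q : ℕ) : ℕ := ∏ p ∈ oddPrimes q, p

lemma mem_oddPrimes {q p : ℕ} : p ∈ oddPrimes q ↔ p ≤ q ∧ p.Prime ∧ p ≠ 2 := by
  simp [oddPrimes]

lemma primeFactors_oddPrimorial (q : ℕ) : (oddPrimorial q).primeFactors = oddPrimes q :=
  Nat.primeFactors_prod fun _ hp => (mem_oddPrimes.1 hp).2.1

lemma oddPrimorial_pos (q : ℕ) : 0 < oddPrimorial q :=
  Finset.prod_pos fun _ hp => (mem_oddPrimes.1 hp).2.1.pos

lemma oddPrimorial_odd (q : ℕ) : Odd (oddPrimorial q) := by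
  unfold oddPrimorial
  refine Finset.prod_induction _ Odd (fun a b ha hb => ha.mul hb) odd_one fun p hp => ?_
  exact (mem_oddPrimes.1 hp).2.1.odd_of_ne_two (mem_oddPrimes.1 hp).2.2

lemma sub_dvd {q : ℕ} {s : Finset ℕ} (hs : s ⊆ oddPrimes q) : ∏ p ∈ s, p ∣ oddPrimorial q :=
  Finset.prod_dvd_prod_of_subset _ _ _ hs

lemma oddNonDeficient_oddPrimorial {q : ℕ} (hq : 13 ≤ q) : OddNonDeficient (oddPrimorial q) := by
  refine ⟨oddPrimorial_odd q, ?_⟩
  have h1 : Nat.Abundant 15015 := by decide +kernel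
  have h2 : ({3, 5, 7, 11, 13} : Finset ℕ) ⊆ oddPrimes q := by
    intro p hp
    simp only [Finset.mem_insert, Finset.mem_singleton] at hp
    rw [mem_oddPrimes]
    rcases hp with rfl | rfl | rfl | rfl | rfl <;> refine ⟨by omega, by norm_num, by norm_num⟩
  have h3 : 15015 ∣ oddPrimorial q := by simpa using sub_dvd h2
  exact (Nat.abundant_iff_sum_divisors.1 (h1.of_dvd h3 (oddPrimorial_pos q).ne')).le

/-- The weight `p / (p - 1)`. -/
noncomputable def w (p : ℕ) : ℝ := (p : ℝ) / ((p : ℝ) - 1)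

lemma one_le_w {p : ℕ} (hp : 2 ≤ p) : 1 ≤ w p := by
  have : (2 : ℝ) ≤ p := by exact_mod_cast hp
  unfold w
  rw [le_div_iff₀ (by linarith)]
  linarith

lemma w_anti {p q : ℕ} (hp : 2 ≤ p) (hpq : p ≤ q) : w q ≤ w p := by
  have h1 : (2 : ℝ) ≤ p := by exact_mod_cast hp
  have h2 : (p : ℝ) ≤ q := by exact_mod_cast hpq
  unfold w
  rw [div_le_div_iff₀ (by linarith) (by linarith)]
  nlinarith

/-- Exchange argument: an odd number below the odd primorial has a visibly smaller `H`. -/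
lemma H_mul_le {q m : ℕ} (hq : 2 ≤ q) (hm : Odd m) (hlt : m < oddPrimorial q) :
    H m * w q ≤ H (oddPrimorial q) := by
  have hm0 : m ≠ 0 := by rintro rfl; simp at hm
  set A := m.primeFactors with hA
  set S := oddPrimes q with hS
  have hA2 : ∀ p ∈ A, 2 ≤ p := fun p hp => (Nat.prime_of_mem_primeFactors hp).two_le
  have hS2 : ∀ p ∈ S, 2 ≤ p := fun p hp => (mem_oddPrimes.1 hp).2.1.two_le
  have hAq : ∀ p ∈ A \ S, q ≤ p := by
    intro p hp
    rw [Finset.mem_sdiff] at hp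
    by_contra hlt'
    refine hp.2 (mem_oddPrimes.2 ⟨by omega, Nat.prime_of_mem_primeFactors hp.1, ?_⟩)
    rintro rfl
    exact (Nat.not_even_iff_odd.2 hm) (even_iff_two_dvd.2 (Nat.dvd_of_mem_primeFactors hp.1))
  have hSq : ∀ p ∈ S \ A, p ≤ q := fun p hp => (mem_oddPrimes.1 (Finset.mem_sdiff.1 hp).1).1
  have hprod : ∏ p ∈ A, p < ∏ p ∈ S, p :=
    lt_of_le_of_lt (Nat.le_of_dvd (Nat.pos_of_ne_zero hm0) (Nat.prod_primeFactors_dvd m)) hlt
  have hsplitA : ∀ {M : Type} [CommMonoid M] (f : ℕ → M),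
      ∏ p ∈ A, f p = (∏ p ∈ A \ S, f p) * ∏ p ∈ A ∩ S, f p := by
    intro M _ f
    rw [← Finset.prod_union (Finset.disjoint_sdiff_inter A S), Finset.sdiff_union_inter]
  have hsplitS : ∀ {M : Type} [CommMonoid M] (f : ℕ → M),
      ∏ p ∈ S, f p = (∏ p ∈ S \ A, f p) * ∏ p ∈ A ∩ S, f p := by
    intro M _ f
    rw [Finset.inter_comm, ← Finset.prod_union (Finset.disjoint_sdiff_inter S A),
      Finset.sdiff_union_inter]
  have hcard : (A \ S).card < (S \ A).card := by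
    rw [hsplitA (fun p => p), hsplitS (fun p => p)] at hprod
    have h1 : ∏ p ∈ A \ S, p < ∏ p ∈ S \ A, p := lt_of_mul_lt_mul_right hprod (Nat.zero_le _)
    have h2 : q ^ (A \ S).card ≤ ∏ p ∈ A \ S, p := Finset.pow_card_le_prod _ _ _ hAq
    have h3 : ∏ p ∈ S \ A, p ≤ q ^ (S \ A).card := Finset.prod_le_pow_card _ _ _ hSq
    exact (Nat.pow_lt_pow_iff_right (by omega)).1 (lt_of_le_of_lt h2 (lt_of_lt_of_le h1 h3))
  have hw1 : 1 ≤ w q := one_le_w hq
  have h4 : ∏ p ∈ A \ S, w p ≤ w q ^ (A \ S).card := by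
    rw [← Finset.prod_const]
    refine Finset.prod_le_prod (fun p hp => ?_) fun p hp => w_anti hq (hAq p hp)
    exact le_trans zero_le_one (one_le_w (hA2 p (Finset.mem_sdiff.1 hp).1))
  have h5 : w q ^ (S \ A).card ≤ ∏ p ∈ S \ A, w p := by
    rw [← Finset.prod_const]
    refine Finset.prod_le_prod (fun p _ => by linarith) fun p hp => ?_
    exact w_anti (hS2 p (Finset.mem_sdiff.1 hp).1) (hSq p hp)
  have h6 : 0 ≤ ∏ p ∈ A ∩ S, w p :=
    Finset.prod_nonneg fun p hp => le_trans zero_le_one (one_le_w (hA2 p (Finset.mem_inter.1 hp).1))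
  have h7 : w q ^ (A \ S).card * w q ≤ w q ^ (S \ A).card := by
    rw [← pow_succ]
    exact pow_le_pow_right₀ hw1 hcard
  have e1 : H m = (∏ p ∈ A \ S, w p) * ∏ p ∈ A ∩ S, w p := hsplitA w
  have e2 : H (oddPrimorial q) = (∏ p ∈ S \ A, w p) * ∏ p ∈ A ∩ S, w p := by
    unfold H
    rw [primeFactors_oddPrimorial]
    exact hsplitS w
  rw [e1, e2]
  calc (∏ p ∈ A \ S, w p) * (∏ p ∈ A ∩ S, w p) * w q
      = ((∏ p ∈ A \ S, w p) * w q) * ∏ p ∈ A ∩ S, w p := by ring
    _ ≤ (w q ^ (A \ S).card * w q) * ∏ p ∈ A ∩ S, w p := by gcongr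
    _ ≤ (∏ p ∈ S \ A, w p) * ∏ p ∈ A ∩ S, w p := by gcongr; exact h7.trans h5

lemma lt_oddPrimorial {q : ℕ} (hq : 13 ≤ q) : 945 < oddPrimorial q := by
  have h2 : ({3, 5, 7, 11} : Finset ℕ) ⊆ oddPrimes q := by
    intro p hp
    simp only [Finset.mem_insert, Finset.mem_singleton] at hp
    rw [mem_oddPrimes]
    rcases hp with rfl | rfl | rfl | rfl <;> refine ⟨by omega, by norm_num, by norm_num⟩
  have h3 : 1155 ∣ oddPrimorial q := by simpa using sub_dvd h2
  have := Nat.le_of_dvd (oddPrimorial_pos q) h3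
  omega

lemma H_945 : H 945 = 35 / 16 := by
  have : Nat.primeFactors 945 = {3, 5, 7} := by decide +kernel
  unfold H
  rw [this]
  norm_num

/-- The jump in front of the odd primorial. -/
lemma g_gap {q m : ℕ} (hq : 13 ≤ q) (hm : Odd m) (hlt : m < oddPrimorial q) :
    g m + Real.sqrt (oddPrimorial q) / q ≤ g (oddPrimorial q) := by
  have hq' : (13 : ℝ) ≤ q := by exact_mod_cast hq
  have h1 := H_mul_le (by omega : 2 ≤ q) hm hlt
  have h2 := H_mul_le (by omega : 2 ≤ q) (by decide : Odd 945) (lt_oddPrimorial hq)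
  rw [H_945] at h2
  set P := oddPrimorial q
  have hw : 1 + 1 / (q : ℝ) ≤ w q := by
    unfold w
    rw [le_div_iff₀ (by linarith)]
    have : (1 + 1 / (q : ℝ)) * (q - 1) = q - 1 / q := by field_simp; ring
    rw [this]
    have : 0 < 1 / (q : ℝ) := by positivity
    linarith
  have hs : Real.sqrt m ≤ Real.sqrt P := Real.sqrt_le_sqrt (by exact_mod_cast hlt.le)
  have hs0 : 0 ≤ Real.sqrt m := Real.sqrt_nonneg _
  have hi : 0 < 1 / (q : ℝ) := by positivity
  unfold g
  have e : Real.sqrt P / q = 1 / (q : ℝ) * Real.sqrt P := by ring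
  rw [e]
  rcases le_total (H m) 2 with h | h
  · have h3 : (H m - 2) * Real.sqrt m ≤ 0 := mul_nonpos_of_nonpos_of_nonneg (by linarith) hs0
    have h4 : 1 / (q : ℝ) ≤ H P - 2 := by nlinarith
    have h5 : 1 / (q : ℝ) * Real.sqrt P ≤ (H P - 2) * Real.sqrt P := by gcongr
    linarith
  · have h3 : (H m - 2) * Real.sqrt m ≤ (H m - 2) * Real.sqrt P := by
      gcongr
    have h4 : H m - 2 + 1 / (q : ℝ) ≤ H P - 2 := by nlinarith
    have h5 : (H m - 2 + 1 / (q : ℝ)) * Real.sqrt P ≤ (H P - 2) * Real.sqrt P := by gcongr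
    linarith

lemma B1_oddPrimorial {q : ℕ} (hq : 13 ≤ q) : B1 (oddPrimorial q) := by
  refine ⟨oddNonDeficient_oddPrimorial hq, fun k hk hk' => ?_⟩
  have h1 := g_gap hq hk'.1 hk
  have h2 : 0 < Real.sqrt (oddPrimorial q) / q := by
    have := oddPrimorial_pos q
    have : 0 < q := by omega
    positivity
  linarith

/-- The odd primorial of `8 N` is at least `8 N ^ 3`, by Bertrand's postulate. -/
lemma cube_le_oddPrimorial {N : ℕ} (hN : 2 ≤ N) : 8 * N ^ 3 ≤ oddPrimorial (8 * N) := by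
  obtain ⟨a, ha, ha1, ha2⟩ := Nat.exists_prime_lt_and_le_two_mul N (by omega)
  obtain ⟨b, hb, hb1, hb2⟩ := Nat.exists_prime_lt_and_le_two_mul (2 * N) (by omega)
  obtain ⟨c, hc, hc1, hc2⟩ := Nat.exists_prime_lt_and_le_two_mul (4 * N) (by omega)
  have hsub : ({a, b, c} : Finset ℕ) ⊆ oddPrimes (8 * N) := by
    intro p hp
    simp only [Finset.mem_insert, Finset.mem_singleton] at hp
    rw [mem_oddPrimes]
    rcases hp with rfl | rfl | rfl <;> refine ⟨by omega, by assumption, by omega⟩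
  have h1 := Nat.le_of_dvd (oddPrimorial_pos _) (sub_dvd hsub)
  rw [Finset.prod_insert (by simp; omega), Finset.prod_pair (by omega)] at h1
  calc 8 * N ^ 3 = N * ((2 * N) * (4 * N)) := by ring
    _ ≤ a * (b * c) := by gcongr
    _ ≤ _ := h1

lemma exists_B1_lt {q : ℕ} (hq : 13 ≤ q) : ∃ k < oddPrimorial q, B1 k := by
  classical
  have h945 : OddNonDeficient 945 := ⟨by decide, by decide +kernel⟩
  have hex : ∃ n, OddNonDeficient n := ⟨945, h945⟩
  refine ⟨Nat.find hex, lt_of_le_of_lt (Nat.find_min' hex h945) (lt_oddPrimorial hq),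
    Nat.find_spec hex, fun k hk hk' => absurd hk' (Nat.find_min hex hk)⟩

/-- The gaps `g(b_{j+1}) - g(b_j)` between consecutive elements of `B₁` are unbounded. -/
theorem result : ∀ M : ℝ, ∃ j : ℕ, M < g (Nat.nth B1 (j + 1)) - g (Nat.nth B1 j) := by
  classical
  intro M
  obtain ⟨N, hN⟩ := exists_nat_gt (8 * M ^ 2 + 2)
  have hM : 0 ≤ M ^ 2 := sq_nonneg M
  have hN2 : 2 ≤ N := by
    have : (2 : ℝ) < N := by linarith
    exact_mod_cast this.le
  have hq : 13 ≤ 8 * N := by omega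
  set P := oddPrimorial (8 * N) with hP
  have hB := B1_oddPrimorial hq
  obtain ⟨k, hk, hkB⟩ := exists_B1_lt hq
  have hcount : 0 < Nat.count B1 P := Nat.pos_of_ne_zero (Nat.count_ne_iff_exists.2 ⟨k, hk, hkB⟩)
  obtain ⟨j, hj⟩ : ∃ j, Nat.count B1 P = j + 1 := ⟨_, (Nat.succ_pred_eq_of_pos hcount).symm⟩
  refine ⟨j, ?_⟩
  have h1 : Nat.nth B1 (j + 1) = P := by rw [← hj]; exact Nat.nth_count hB
  have h2 : Nat.nth B1 j < P := Nat.nth_lt_of_lt_count (by omega)
  have h3 : B1 (Nat.nth B1 j) := by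
    refine Nat.nth_mem j fun hf => ?_
    have := Nat.count_le_card hf P
    omega
  have h4 := g_gap hq h3.1.1 h2
  have hN' : (2 : ℝ) ≤ N := by exact_mod_cast hN2
  have h5 : M < Real.sqrt P / ((8 * N : ℕ) : ℝ) := by
    rw [lt_div_iff₀ (by positivity)]
    refine Real.lt_sqrt_of_sq_lt ?_
    have h6 : ((8 * N ^ 3 : ℕ) : ℝ) ≤ P := by exact_mod_cast cube_le_oddPrimorial hN2
    push_cast at h6 ⊢
    have h7 : 0 < (N : ℝ) ^ 2 := by positivity
    nlinarith
  rw [h1]
  linarith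

end Pool.Agent.Results.MP_e83726_nt.GapsUnbounded
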